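import Pool.Agent.W93.PG7
import Pool.Agent.H560R3.GB.Defs

/-!
# Goldbach representations in primorial intervals for almost all integers with independent digits

Definitions used (in `Pool.Agent.H560R3.GB`): `C₂`: the twin prime constant
`∏_{p > 2} (1 - 1 / (p - 1) ^ 2)`; `sing m`: the singular series `2 C₂ ∏_{p ∣ m, p > 2} (p - 1) / (p - 2)`.
-/

set_option autoImplicit false

namespace Pool.Agent.Results.MP_484fb8_nt.RandomDigits

open Finset Pool.Agent.H560R3.GB

/-- `#(n)`: the product of the first `n` primes. -/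
noncomputable def P (n : ℕ) : ℕ := ∏ i ∈ range n, Nat.nth Nat.Prime i

/-- The number of primes `p` in the `n`-th primorial interval such that `m - p` is a prime which lies in the
`n`-th or in the `n + 1`-st primorial interval. -/
noncomputable def R (n m : ℕ) : ℕ :=
  ((Icc (P (n - 1) + 1) (P n + 1)).filter
    (fun p => p.Prime ∧ (m - p).Prime ∧ P (n - 1) + 1 ≤ m - p ∧ m - p ≤ P (n + 1) + 1)).card

/-- If `m` belongs to the `n + 1`-st primorial interval (`n ≥ 1`), then `m = p + q` where `p` is a prime in the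
`n`-th primorial interval and `q` is a prime in the `n`-th or in the `n + 1`-st one; moreover, up to a relative
error of at most `ε`, the number of these representations is `sing m * #(n) / log ^ 2 m`. -/
def Holds (ε : ℝ) (m : ℕ) : Prop :=
  ∀ n : ℕ, 1 ≤ n → P n + 1 ≤ m → m ≤ P (n + 1) + 1 →
    (∃ p q : ℕ, p.Prime ∧ q.Prime ∧ m = p + q ∧ P (n - 1) + 1 ≤ p ∧ p ≤ P n + 1 ∧ P (n - 1) + 1 ≤ q ∧ q ≤ P (n + 1) + 1) ∧
    |(R n m : ℝ) - sing m * P n / Real.log m ^ 2| ≤ ε * (sing m * P n / Real.log m ^ 2)

/-- The integer `c + d 0 + d 1 * b + ... + d (k - 1) * b ^ (k - 1)`. -/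
def value (b : ℕ) (c : ℤ) {k : ℕ} (d : Fin k → ℕ) : ℤ := c + ∑ j, (d j : ℤ) * (b : ℤ) ^ (j : ℕ)

open Classical in
/-- The probability of the event `E` if the digits `d 0, ..., d (k - 1)` are chosen independently
of each other from `{0, ..., H - 1}`, and `d j` is equal to `a` with probability `w j a`. -/
noncomputable def Prob (H k : ℕ) (w : ℕ → ℕ → ℝ) (E : (Fin k → ℕ) → Prop) : ℝ :=
  ∑ d ∈ Fintype.piFinset (fun _ : Fin k => range H), if E d then ∏ j : Fin k, w j (d j) else 0

/-- Let `b ≥ 2`, `H`, `B`, `U`, `η > 0` and `ε > 0` be fixed and let `k` be large. Let the digits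
`d 0, ..., d (k - 1)` be independent random elements of `{0, ..., H - 1}` with arbitrary distributions
(which may depend on the position and on `k`), none of which takes a value with a probability larger than
`1 - η`, and let `c` be an arbitrary integer with `|c| ≤ B b ^ k`. Then, with a probability of at least
`1 - 1 / k ^ U`, the integer `m = c + ∑ d j b ^ j` has the following property: if `m` is positive and even,
then the assertion of the problem holds for `m`, and the number of the representations required there is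
as predicted, up to a relative error of at most `ε`. -/
theorem result (b H B U : ℕ) (hb : 2 ≤ b) (η ε : ℝ) (hη : 0 < η) (hε : 0 < ε) :
    ∃ k₀ : ℕ, ∀ k : ℕ, k₀ ≤ k → ∀ w : ℕ → ℕ → ℝ,
      (∀ j < k, (∀ a, 0 ≤ w j a ∧ w j a ≤ 1 - η) ∧ ∑ a ∈ range H, w j a = 1) →
      ∀ c : ℤ, |c| ≤ B * (b : ℤ) ^ k →
        Prob H k w (fun d => 0 < value b c d ∧ Even (value b c d) ∧ ¬ Holds ε (value b c d).toNat) ≤
          1 / (k : ℝ) ^ U := by
  classical
  obtain ⟨m₀, h0⟩ := Pool.Agent.W93.PG.reps_of_win (min ε (1 / 2)) (lt_min hε (by norm_num))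
    ((min_le_right _ _).trans (by norm_num))
  obtain ⟨k₀, h1⟩ := Pool.Agent.W93.PG.pg_windows b H B 2 U (m₀ + 3) hb η (min ε (1 / 2) / 4) hη
    (div_pos (lt_min hε (by norm_num)) (by norm_num)) (Holds ε) (by
      intro m hm _ hwin n hn h2 h3
      have h4 := h0 m (by omega) hwin n hn h2 h3
      have hm0 : (3 : ℝ) ≤ m := by exact_mod_cast (by omega : 3 ≤ m)
      have hlog : 0 < Real.log m := Real.log_pos (by linarith)
      have hs := Pool.Agent.W93.GB.one_le_sing m
      have hP : (0 : ℝ) < P n := by exact_mod_cast Pool.Agent.W93.PG.PR_pos n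
      have hmain : 0 < sing m * P n / Real.log m ^ 2 := by positivity
      have hR : R n m = Pool.Agent.W93.PG.reps n m := rfl
      have hPR : Pool.Agent.W93.PG.PR n = P n := rfl
      rw [← hR, hPR] at h4
      have h5 : |(R n m : ℝ) - sing m * P n / Real.log m ^ 2| ≤ ε * (sing m * P n / Real.log m ^ 2) :=
        h4.trans (mul_le_mul_of_nonneg_right (min_le_left _ _) hmain.le)
      have h6 : |(R n m : ℝ) - sing m * P n / Real.log m ^ 2| ≤ 1 / 2 * (sing m * P n / Real.log m ^ 2) :=
        h4.trans (mul_le_mul_of_nonneg_right (min_le_right _ _) hmain.le)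
      refine ⟨?_, h5⟩
      have h7 : (0 : ℝ) < R n m := by
        rw [abs_le] at h6
        linarith [h6.1]
      have h8 : 0 < R n m := by exact_mod_cast h7
      unfold R at h8
      rw [card_pos] at h8
      obtain ⟨p, hp⟩ := h8
      rw [mem_filter, mem_Icc] at hp
      obtain ⟨⟨p1, p2⟩, p3, p4, p5, p6⟩ := hp
      exact ⟨p, m - p, p3, p4, by have := p4.pos; omega, p1, p2, p5, p6⟩)
  refine ⟨k₀, fun k hk w hw c hc => ?_⟩
  have hval : ∀ d : Fin k → ℕ, value b c d = c + (Pool.Agent.W93.RD.val b d : ℤ) := by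
    intro d
    unfold value Pool.Agent.W93.RD.val
    push_cast
    rfl
  have h2 := h1 k hk w (fun j hj a => ((hw j hj).1 a).1) (fun j hj a => ((hw j hj).1 a).2) (fun j hj => (hw j hj).2) c hc
    (fun d => 0 < value b c d ∧ Even (value b c d) ∧ ¬ Holds ε (value b c d).toNat) (Classical.decPred _) (by
      intro d _ hd
      simp only [hval] at hd
      exact ⟨hd.1, hd.2.1.two_dvd, hd.2.2⟩)
  refine le_trans (le_of_eq ?_) h2
  unfold Prob Pool.Agent.W93.RD.Str Pool.Agent.W93.RD.pw
  apply sum_congr rfl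
  intro d _
  congr

end Pool.Agent.Results.MP_484fb8_nt.RandomDigits
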